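import Pool.Agent.Helper39.Trans.Goals

/-! Packet B for MP_549fdb_co: certificates of vertices. -/

namespace Pool.Agent.Helper17.Trans

open Finset Classical Matrix Pool.Agent.Helper39.Trans

section

variable {n : ℕ} {ι Λ κ : Type} [Fintype ι] [Fintype Λ] [Fintype κ] (A : Sys n ι Λ κ)

lemma mem_fib {l : Λ} {v : ι} : v ∈ A.fib l ↔ A.grp v = l := by
  simp [Sys.fib]

lemma mem_W {l : Λ} {q : Fin n → ℝ} {v : ι} :
    v ∈ A.W l q ↔ A.grp v = l ∧ ∀ w ∈ A.fib l, A.h v q ≤ A.h w q := by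
  simp [Sys.W, mem_fib]

lemma W_eq {l : Λ} {q : Fin n → ℝ} {v w : ι} (hv : v ∈ A.W l q) (hw : w ∈ A.W l q) :
    A.h v q = A.h w q := by
  rw [mem_W] at hv hw
  exact le_antisymm (hv.2 w ((mem_fib A).2 hw.1)) (hw.2 v ((mem_fib A).2 hv.1))

lemma act_h {l : Λ} {q : Fin n → ℝ} {v : ι} (ha : A.Act l q) (hv : v ∈ A.W l q) :
    A.h v q = 0 := by
  obtain ⟨w, hw, h0⟩ := ha
  rw [W_eq A hv hw, h0]

lemma mem_Ig {l : Λ} {q : Fin n → ℝ} : l ∈ A.Ig q ↔ A.Act l q := by
  simp [Sys.Ig]

lemma mem_Bt {k : κ} {q : Fin n → ℝ} : k ∈ A.Bt q ↔ A.bx k q = 0 := by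
  simp [Sys.Bt]

lemma mem_Jg {l : Λ} {q : Fin n → ℝ} : l ∈ A.Jg q ↔ 2 ≤ (A.W l q).card := by
  simp [Sys.Jg]

lemma mem_Dg {l : Λ} {q : Fin n → ℝ} : l ∈ A.Dg q ↔ A.Act l q ∨ 2 ≤ (A.W l q).card := by
  simp [Sys.Dg, mem_Ig, mem_Jg]

/-- The space of admissible coefficients at `q`. -/
def E (q : Fin n → ℝ) : Submodule ℝ ((ι → ℝ) × (κ → ℝ)) where
  carrier := {p | (∀ v, v ∉ A.W (A.grp v) q → p.1 v = 0) ∧ (∀ k, k ∉ A.Bt q → p.2 k = 0) ∧
    ∀ l, ¬ A.Act l q → ∑ v ∈ A.fib l, p.1 v = 0}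
  zero_mem' := by simp
  add_mem' := by
    rintro p p' ⟨h1, h2, h3⟩ ⟨h1', h2', h3'⟩
    refine ⟨fun v hv => ?_, fun k hk => ?_, fun l hl => ?_⟩
    · simp [h1 v hv, h1' v hv]
    · simp [h2 k hk, h2' k hk]
    · simp only [Prod.fst_add, Pi.add_apply, Finset.sum_add_distrib]
      rw [h3 l hl, h3' l hl, add_zero]
  smul_mem' := by
    rintro c p ⟨h1, h2, h3⟩
    refine ⟨fun v hv => ?_, fun k hk => ?_, fun l hl => ?_⟩
    · simp [h1 v hv]
    · simp [h2 k hk]
    · simp only [Prod.smul_fst, Pi.smul_apply, smul_eq_mul]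
      rw [← Finset.mul_sum, h3 l hl, mul_zero]

/-- The linear combination with given coefficients. -/
noncomputable def R : ((ι → ℝ) × (κ → ℝ)) →ₗ[ℝ] (Fin n → ℝ) :=
  (Fintype.linearCombination ℝ A.a).coprod (Fintype.linearCombination ℝ A.ba)

lemma R_apply (p : (ι → ℝ) × (κ → ℝ)) :
    R A p = ∑ v, p.1 v • A.a v + ∑ k, p.2 k • A.ba k := by
  simp [R, Fintype.linearCombination_apply]

lemma single_mem {q : Fin n → ℝ} {v : ι} (ha : A.Act (A.grp v) q) (hv : v ∈ A.W (A.grp v) q) :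
    ((Pi.single v 1 : ι → ℝ), (0 : κ → ℝ)) ∈ E A q := by
  refine ⟨fun w hw => ?_, fun k _ => rfl, fun l hl => ?_⟩
  · have : w ≠ v := by rintro rfl; exact hw hv
    simp [this]
  · apply Finset.sum_eq_zero
    intro w hw
    have : w ≠ v := by
      rintro rfl
      rw [mem_fib] at hw
      exact hl (hw ▸ ha)
    simp [this]

lemma diff_mem {q : Fin n → ℝ} {l : Λ} {v w : ι} (hv : v ∈ A.W l q) (hw : w ∈ A.W l q) :
    ((Pi.single v 1 - Pi.single w 1 : ι → ℝ), (0 : κ → ℝ)) ∈ E A q := by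
  have hgv : A.grp v = l := ((mem_W A).1 hv).1
  have hgw : A.grp w = l := ((mem_W A).1 hw).1
  refine ⟨fun u hu => ?_, fun k _ => rfl, fun l' _ => ?_⟩
  · have h1 : u ≠ v := by rintro rfl; rw [hgv] at hu; exact hu hv
    have h2 : u ≠ w := by rintro rfl; rw [hgw] at hu; exact hu hw
    simp [h1, h2]
  · simp only [Pi.sub_apply, Finset.sum_sub_distrib, Pi.single_apply, Finset.sum_ite_eq',
      mem_fib, hgv, hgw, sub_self]

lemma box_mem {q : Fin n → ℝ} {k : κ} (hk : k ∈ A.Bt q) :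
    ((0 : ι → ℝ), (Pi.single k 1 : κ → ℝ)) ∈ E A q := by
  refine ⟨fun u _ => rfl, fun j hj => ?_, fun l' _ => ?_⟩
  · have : j ≠ k := by rintro rfl; exact hj hk
    simp [this]
  · simp

lemma R_single (v : ι) : R A ((Pi.single v 1 : ι → ℝ), (0 : κ → ℝ)) = A.a v := by
  simp [R_apply, Pi.single_apply]

lemma R_diff (v w : ι) :
    R A ((Pi.single v 1 - Pi.single w 1 : ι → ℝ), (0 : κ → ℝ)) = A.a v - A.a w := by
  have : ((Pi.single v 1 - Pi.single w 1 : ι → ℝ), (0 : κ → ℝ)) =
      ((Pi.single v 1 : ι → ℝ), (0 : κ → ℝ)) - ((Pi.single w 1 : ι → ℝ), (0 : κ → ℝ)) := by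
    simp
  rw [this, map_sub, R_single, R_single]

lemma R_box (k : κ) : R A ((0 : ι → ℝ), (Pi.single k 1 : κ → ℝ)) = A.ba k := by
  simp [R_apply, Pi.single_apply]

lemma exists_G (hL : LinFacts n κ) (hF : A.Full) (hG : A.GP) (q : Fin n → ℝ)
    (hq : A.Vtx univ q) :
    ∃ G : (Fin n → ℝ) →ₗ[ℝ] ((ι → ℝ) × (κ → ℝ)), (∀ f, G f ∈ E A q) ∧ (∀ f, R A (G f) = f) ∧
      ∀ p ∈ E A q, G (R A p) = p := by
  obtain ⟨hbox, hcnt⟩ := hq
  have hker := (hL ι Λ A hF hG univ q hbox).2.1 hcnt
  let RE : E A q →ₗ[ℝ] (Fin n → ℝ) := (R A).domRestrict (E A q)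
  have hinj : Function.Injective RE := by
    rw [← LinearMap.ker_eq_bot, LinearMap.ker_eq_bot']
    rintro ⟨p, hp⟩ h0
    have h0' : R A p = 0 := h0
    rw [R_apply] at h0'
    have := hG q hbox p.1 p.2 (fun v hv => by
      by_contra hcon
      exact hv (hp.1 v hcon)) (fun k hk => by
      by_contra hcon
      exact hk (hp.2.1 k hcon)) hp.2.2 h0'
    apply Subtype.ext
    exact Prod.ext this.1 this.2
  have hsurj : Function.Surjective RE := by
    rw [← LinearMap.range_eq_top]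
    by_contra hne
    obtain ⟨φ, hφ, hle⟩ := Submodule.exists_le_ker_of_lt_top _ (lt_top_iff_ne_top.2 hne)
    let d : Fin n → ℝ := fun i => φ (Pi.single i 1)
    have hd : ∀ x : Fin n → ℝ, φ x = x ⬝ᵥ d := by
      intro x
      have hx : x = ∑ i, x i • (Pi.single i 1 : Fin n → ℝ) := by
        funext j
        simp [Finset.sum_apply, Pi.single_apply]
      conv_lhs => rw [hx]
      rw [map_sum]
      simp [dotProduct, d]
    have hR : ∀ p ∈ E A q, R A p ⬝ᵥ d = 0 := by
      intro p hp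
      rw [← hd]
      have : RE ⟨p, hp⟩ ∈ LinearMap.range RE := ⟨_, rfl⟩
      exact hle this
    have hd0 : d = 0 := by
      apply hker
      refine ⟨fun l _ v hv w hw => ?_, fun l _ hact v hv => ?_, fun k hk => ?_⟩
      · have := hR _ (diff_mem A hv hw)
        rw [R_diff, sub_dotProduct] at this
        linarith
      · have hgv : A.grp v = l := ((mem_W A).1 hv).1
        have := hR _ (single_mem A (v := v) (by rw [hgv]; exact hact) (by rw [hgv]; exact hv))
        rwa [R_single] at this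
      · have := hR _ (box_mem A hk)
        rwa [R_box] at this
    apply hφ
    ext x
    rw [LinearMap.comp_apply, LinearMap.comp_apply, hd, hd0]
    simp
  let e := LinearEquiv.ofBijective RE ⟨hinj, hsurj⟩
  refine ⟨(E A q).subtype ∘ₗ e.symm.toLinearMap, fun f => ?_, fun f => ?_, fun p hp => ?_⟩
  · exact (e.symm f).2
  · exact e.apply_symm_apply f
  · have := e.symm_apply_apply ⟨p, hp⟩
    exact congrArg Subtype.val this

lemma finite_vtx (hL : LinFacts n κ) (hF : A.Full) (hG : A.GP) :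
    {q | A.Vtx univ q}.Finite := by
  let F : (Fin n → ℝ) → (Λ → Finset ι) × Finset Λ × Finset κ :=
    fun q => (fun l => A.W l q, A.Ig q, A.Bt q)
  apply Set.Finite.of_finite_image (f := F) (Set.toFinite _)
  intro q hq q' hq' hF'
  simp only [F, Prod.mk.injEq] at hF'
  obtain ⟨hW, hI, hB⟩ := hF'
  obtain ⟨hbox, hcnt⟩ := hq
  have hker := (hL ι Λ A hF hG univ q hbox).2.1 hcnt
  have h0 : q' - q = 0 := by
    apply hker
    refine ⟨fun l _ v hv w hw => ?_, fun l _ hact v hv => ?_, fun k hk => ?_⟩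
    · have e1 := W_eq A hv hw
      have hv' : v ∈ A.W l q' := by rw [← congrFun hW l]; exact hv
      have hw' : w ∈ A.W l q' := by rw [← congrFun hW l]; exact hw
      have e2 := W_eq A hv' hw'
      simp only [Sys.h] at e1 e2
      rw [dotProduct_sub, dotProduct_sub]
      linarith
    · have e1 := act_h A hact hv
      have hact' : A.Act l q' := by rw [← mem_Ig, ← hI, mem_Ig]; exact hact
      have hv' : v ∈ A.W l q' := by rw [← congrFun hW l]; exact hv
      have e2 := act_h A hact' hv'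
      simp only [Sys.h] at e1 e2
      rw [dotProduct_sub]
      linarith
    · have e1 := (mem_Bt A).1 hk
      have e2 := (mem_Bt A).1 (by rw [← hB]; exact hk : k ∈ A.Bt q')
      simp only [Sys.bx] at e1 e2
      rw [dotProduct_sub]
      linarith
  exact (sub_eq_zero.1 h0).symm

/-- The coefficients of a generic functional at a vertex. -/
structure Good (f q : Fin n → ℝ) (lam : ι → ℝ) (mu : κ → ℝ) : Prop where
  supp : ∀ v, lam v ≠ 0 → v ∈ A.W (A.grp v) q
  suppb : ∀ k, mu k ≠ 0 → k ∈ A.Bt q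
  sum0 : ∀ l, ¬ A.Act l q → ∑ v ∈ A.fib l, lam v = 0
  comb : ∑ v, lam v • A.a v + ∑ k, mu k • A.ba k = f
  ne : ∀ v, v ∈ A.W (A.grp v) q → A.grp v ∈ A.Dg q → lam v ≠ 0
  neb : ∀ k ∈ A.Bt q, mu k ≠ 0

lemma exists_generic (hL : LinFacts n κ) (hF : A.Full) (hG : A.GP) :
    ∃ f : Fin n → ℝ, ∀ q, A.Vtx univ q → ∃ lam mu, Good A f q lam mu := by
  have hfin := finite_vtx A hL hF hG
  have hfin' : Finite {q // A.Vtx univ q} := hfin
  choose G hG1 hG2 hG3 using fun q : {q // A.Vtx univ q} => exists_G A hL hF hG q.1 q.2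
  let φ : {q // A.Vtx univ q} → ι ⊕ κ → ((Fin n → ℝ) →ₗ[ℝ] ℝ) := fun q i =>
    match i with
    | Sum.inl v => (LinearMap.proj v ∘ₗ LinearMap.fst ℝ (ι → ℝ) (κ → ℝ)) ∘ₗ G q
    | Sum.inr k => (LinearMap.proj k ∘ₗ LinearMap.snd ℝ (ι → ℝ) (κ → ℝ)) ∘ₗ G q
  let Rel : {q // A.Vtx univ q} × (ι ⊕ κ) → Prop := fun t =>
    match t.2 with
    | Sum.inl v => v ∈ A.W (A.grp v) t.1.1 ∧ A.grp v ∈ A.Dg t.1.1
    | Sum.inr k => k ∈ A.Bt t.1.1
  have hnt : ∀ t : {t // Rel t}, LinearMap.ker (φ t.1.1 t.1.2) ≠ ⊤ := by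
    rintro ⟨⟨q, i⟩, ht⟩ htop
    rw [LinearMap.ker_eq_top] at htop
    rcases i with v | k
    · have ht' : v ∈ A.W (A.grp v) q.1 ∧ A.grp v ∈ A.Dg q.1 := ht
      have hex : ∃ p ∈ E A q.1, p.1 v ≠ 0 := by
        by_cases hact : A.Act (A.grp v) q.1
        · exact ⟨_, single_mem A hact ht'.1, by simp⟩
        · have h2 : 2 ≤ (A.W (A.grp v) q.1).card := by
            rcases (mem_Dg A).1 ht'.2 with h | h
            · exact absurd h hact
            · exact h
          obtain ⟨w, hw, hwv⟩ := Finset.exists_mem_ne (s := A.W (A.grp v) q.1)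
            (by omega) v
          refine ⟨_, diff_mem A ht'.1 hw, ?_⟩
          simp [hwv.symm]
      obtain ⟨p, hp, hpv⟩ := hex
      apply hpv
      have h0 : φ q (Sum.inl v) (R A p) = 0 := by rw [htop]; rfl
      have h1 : φ q (Sum.inl v) (R A p) = (G q (R A p)).1 v := rfl
      rw [h1, hG3 q p hp] at h0
      exact h0
    · have ht' : k ∈ A.Bt q.1 := ht
      have h0 : φ q (Sum.inr k) (R A ((0 : ι → ℝ), (Pi.single k 1 : κ → ℝ))) = 0 := by
        rw [htop]; rfl
      have h1 : φ q (Sum.inr k) (R A ((0 : ι → ℝ), (Pi.single k 1 : κ → ℝ))) =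
        (G q (R A ((0 : ι → ℝ), (Pi.single k 1 : κ → ℝ)))).2 k := rfl
      rw [h1, hG3 q _ (box_mem A ht')] at h0
      simp at h0
  have hex : ∃ f : Fin n → ℝ, ∀ t : {t // Rel t}, φ t.1.1 t.1.2 f ≠ 0 := by
    by_contra hcon
    push Not at hcon
    have hcov : ⋃ t : {t // Rel t}, ((LinearMap.ker (φ t.1.1 t.1.2) :
        Subspace ℝ (Fin n → ℝ)) : Set (Fin n → ℝ)) = Set.univ := by
      apply Set.eq_univ_of_forall
      intro f
      obtain ⟨t, ht⟩ := hcon f
      exact Set.mem_iUnion.2 ⟨t, ht⟩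
    obtain ⟨t, ht⟩ := Subspace.exists_eq_top_of_iUnion_eq_univ hcov
    exact hnt t ht
  obtain ⟨f, hf⟩ := hex
  refine ⟨f, fun q hq => ⟨(G ⟨q, hq⟩ f).1, (G ⟨q, hq⟩ f).2, ?_⟩⟩
  have hm := hG1 ⟨q, hq⟩ f
  constructor
  · intro v hv
    by_contra hcon
    exact hv (hm.1 v hcon)
  · intro k hk
    by_contra hcon
    exact hk (hm.2.1 k hcon)
  · exact hm.2.2
  · have := hG2 ⟨q, hq⟩ f
    rwa [R_apply] at this
  · intro v hv hd
    exact hf ⟨(⟨q, hq⟩, Sum.inl v), ⟨hv, hd⟩⟩
  · intro k hk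
    exact hf ⟨(⟨q, hq⟩, Sum.inr k), hk⟩

/-- Outside the defining groups the coefficients vanish. -/
lemma Good.zero {f q : Fin n → ℝ} {lam : ι → ℝ} {mu : κ → ℝ} (h : Good A f q lam mu) (v : ι)
    (hv : A.grp v ∉ A.Dg q) : lam v = 0 := by
  by_contra hne
  have hvW := h.supp v hne
  rw [mem_Dg] at hv
  push Not at hv
  have h0 := h.sum0 _ hv.1
  rw [Finset.sum_eq_single v] at h0
  · exact hne h0
  · intro w hw hwv
    by_contra hw0
    have hwW := h.supp w hw0
    rw [(mem_fib A).1 hw] at hwW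
    have : 1 < (A.W (A.grp v) q).card := Finset.one_lt_card.2 ⟨w, hwW, v, hvW, hwv⟩
    omega
  · intro hnot
    exact absurd ((mem_fib A).2 rfl) hnot

/-- The sign of a side. -/
def sgn (s : Bool) : ℝ := if s then 1 else -1

/-- The main inequality. -/
lemma main_ineq {f q q' : Fin n → ℝ} {lam lam' : ι → ℝ} {mu mu' : κ → ℝ} (hF : A.Full)
    (hg : Good A f q lam mu) (hg' : Good A f q' lam' mu') (hbox' : A.Box q')
    (hker : ∀ d, A.Ker univ q d → d = 0)
    (hI : A.Ig q = A.Ig q') (s : Bool)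
    (hT : ∀ v, sgn s * lam v < 0 ↔ sgn s * lam' v < 0)
    (hTB : ∀ k, sgn s * mu k < 0 ↔ sgn s * mu' k < 0) :
    0 ≤ sgn s * (f ⬝ᵥ q' - f ⬝ᵥ q) ∧ (sgn s * (f ⬝ᵥ q' - f ⬝ᵥ q) = 0 → q' = q) := by
  have hs : sgn s ≠ 0 := by unfold sgn; split_ifs <;> norm_num
  -- minimal value of a group at q'
  have hW' : ∀ l, ∃ v, v ∈ A.W l q' := by
    intro l
    obtain ⟨v0, hv0⟩ := hF l
    obtain ⟨v, hv, hmin⟩ := Finset.exists_min_image (A.fib l) (fun v => A.h v q')
      ⟨v0, (mem_fib A).2 hv0⟩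
    exact ⟨v, (mem_W A).2 ⟨(mem_fib A).1 hv, fun w hw => hmin w hw⟩⟩
  choose u hu using hW'
  let m : Λ → ℝ := fun l => A.h (u l) q'
  have hm : ∀ v, m (A.grp v) ≤ A.h v q' := fun v =>
    ((mem_W A).1 (hu (A.grp v))).2 v ((mem_fib A).2 rfl)
  have hmact : ∀ l, A.Act l q' → m l = 0 := fun l hl => act_h A hl (hu l)
  -- the terms
  let tv : ι → ℝ := fun v => sgn s * lam v * (A.h v q' - m (A.grp v))
  let tk : κ → ℝ := fun k => sgn s * mu k * A.bx k q'
  have htv : ∀ v, 0 ≤ tv v := by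
    intro v
    by_cases hneg : sgn s * lam v < 0
    · have h1 := (hT v).1 hneg
      have h2 : lam' v ≠ 0 := by
        intro h0; rw [h0, mul_zero] at h1; exact lt_irrefl _ h1
      have h3 := W_eq A (hg'.supp v h2) (hu (A.grp v))
      have : A.h v q' - m (A.grp v) = 0 := by simp only [m]; linarith
      simp only [tv, this, mul_zero]
      exact le_refl _
    · exact mul_nonneg (not_lt.1 hneg) (by linarith [hm v])
  have htk : ∀ k, 0 ≤ tk k := by
    intro k
    by_cases hneg : sgn s * mu k < 0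
    · have h1 := (hTB k).1 hneg
      have h2 : mu' k ≠ 0 := by
        intro h0; rw [h0, mul_zero] at h1; exact lt_irrefl _ h1
      have h3 := (mem_Bt A).1 (hg'.suppb k h2)
      simp only [tk, h3, mul_zero]
      exact le_refl _
    · exact mul_nonneg (not_lt.1 hneg) (hbox' k)
  -- the identity
  have hid : sgn s * (f ⬝ᵥ q' - f ⬝ᵥ q) = ∑ v, tv v + ∑ k, tk k := by
    have e1 : ∀ x : Fin n → ℝ, f ⬝ᵥ x =
        ∑ v, lam v * (A.a v ⬝ᵥ x) + ∑ k, mu k * (A.ba k ⬝ᵥ x) := by
      intro x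
      rw [← hg.comb, add_dotProduct, sum_dotProduct, sum_dotProduct]
      simp [smul_dotProduct]
    have e2 : ∑ v, lam v * (A.a v ⬝ᵥ q' - A.a v ⬝ᵥ q) =
        ∑ v, lam v * (A.h v q' - m (A.grp v)) := by
      have e3 : ∀ v, lam v * (A.a v ⬝ᵥ q' - A.a v ⬝ᵥ q) - lam v * (A.h v q' - m (A.grp v)) =
          lam v * (m (A.grp v) - A.h v q) := by
        intro v; simp only [Sys.h]; ring
      rw [← sub_eq_zero, ← Finset.sum_sub_distrib]
      simp_rw [e3]
      rw [← Finset.sum_fiberwise (s := (univ : Finset ι)) (g := A.grp)]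
      apply Finset.sum_eq_zero
      intro l _
      by_cases hact : A.Act l q
      · apply Finset.sum_eq_zero
        intro v hv
        have hgv : A.grp v = l := by simpa using hv
        by_cases h0 : lam v = 0
        · rw [h0, zero_mul]
        · have h1 := hg.supp v h0
          rw [hgv] at h1
          have h2 := act_h A hact h1
          have hact' : A.Act l q' := by rw [← mem_Ig, ← hI, mem_Ig]; exact hact
          rw [h2, hgv, hmact l hact']
          ring
      · have h1 := hg.sum0 l hact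
        by_cases hex : ∃ v0, v0 ∈ A.W l q
        · obtain ⟨v0, hv0⟩ := hex
          have h2 : ∀ v ∈ univ.filter (fun v => A.grp v = l),
              lam v * (m (A.grp v) - A.h v q) = lam v * (m l - A.h v0 q) := by
            intro v hv
            have hgv : A.grp v = l := by simpa using hv
            by_cases h0 : lam v = 0
            · rw [h0, zero_mul, zero_mul]
            · have h3 := hg.supp v h0
              rw [hgv] at h3
              rw [W_eq A h3 hv0, hgv]
          rw [Finset.sum_congr rfl h2, ← Finset.sum_mul]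
          have h3 : ∑ v ∈ univ.filter (fun v => A.grp v = l), lam v = 0 := h1
          rw [h3, zero_mul]
        · apply Finset.sum_eq_zero
          intro v hv
          have hgv : A.grp v = l := by simpa using hv
          have h0 : lam v = 0 := by
            by_contra hne
            have h3 := hg.supp v hne
            rw [hgv] at h3
            exact hex ⟨v, h3⟩
          rw [h0, zero_mul]
    have e4 : ∑ k, mu k * (A.ba k ⬝ᵥ q' - A.ba k ⬝ᵥ q) = ∑ k, mu k * A.bx k q' := by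
      apply Finset.sum_congr rfl
      intro k _
      by_cases h0 : mu k = 0
      · rw [h0, zero_mul, zero_mul]
      · have h1 := (mem_Bt A).1 (hg.suppb k h0)
        simp only [Sys.bx] at h1 ⊢
        have : A.ba k ⬝ᵥ q = - A.bb k := by linarith
        rw [this]; ring
    have e5 : f ⬝ᵥ q' - f ⬝ᵥ q = ∑ v, lam v * (A.a v ⬝ᵥ q' - A.a v ⬝ᵥ q) +
        ∑ k, mu k * (A.ba k ⬝ᵥ q' - A.ba k ⬝ᵥ q) := by
      rw [e1 q', e1 q]
      simp only [mul_sub, Finset.sum_sub_distrib]
      ring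
    rw [e5, e2, e4, mul_add, Finset.mul_sum, Finset.mul_sum]
    simp only [tv, tk, mul_assoc]
  have hsv : 0 ≤ ∑ v, tv v := Finset.sum_nonneg fun v _ => htv v
  have hsk : 0 ≤ ∑ k, tk k := Finset.sum_nonneg fun k _ => htk k
  refine ⟨by rw [hid]; exact add_nonneg hsv hsk, fun h0 => ?_⟩
  rw [hid] at h0
  have hv0 : ∀ v, tv v = 0 := by
    have : ∑ v, tv v = 0 := by linarith
    intro v
    exact (Finset.sum_eq_zero_iff_of_nonneg fun v _ => htv v).1 this v (mem_univ v)
  have hk0 : ∀ k, tk k = 0 := by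
    have : ∑ k, tk k = 0 := by linarith
    intro k
    exact (Finset.sum_eq_zero_iff_of_nonneg fun k _ => htk k).1 this k (mem_univ k)
  have hval : ∀ v, v ∈ A.W (A.grp v) q → A.grp v ∈ A.Dg q → A.h v q' = m (A.grp v) := by
    intro v hv hd
    have h1 := hg.ne v hv hd
    have h2 := hv0 v
    simp only [tv] at h2
    have h3 : sgn s * lam v ≠ 0 := mul_ne_zero hs h1
    have := (mul_eq_zero.1 h2).resolve_left h3
    linarith
  have hd0 : q' - q = 0 := by
    apply hker
    refine ⟨fun l _ v hv w hw => ?_, fun l _ hact v hv => ?_, fun k hk => ?_⟩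
    · by_cases hvw : v = w
      · rw [hvw]
      · have hgv : A.grp v = l := ((mem_W A).1 hv).1
        have hgw : A.grp w = l := ((mem_W A).1 hw).1
        have hd : l ∈ A.Dg q := (mem_Dg A).2 (Or.inr (by
          have : 1 < (A.W l q).card := Finset.one_lt_card.2 ⟨v, hv, w, hw, hvw⟩
          omega))
        have h1 := hval v (by rw [hgv]; exact hv) (by rw [hgv]; exact hd)
        have h2 := hval w (by rw [hgw]; exact hw) (by rw [hgw]; exact hd)
        have h3 := W_eq A hv hw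
        rw [hgv] at h1
        rw [hgw] at h2
        simp only [Sys.h] at h1 h2 h3
        rw [dotProduct_sub, dotProduct_sub]
        linarith
    · have hgv : A.grp v = l := ((mem_W A).1 hv).1
      have hd : l ∈ A.Dg q := (mem_Dg A).2 (Or.inl hact)
      have h1 := hval v (by rw [hgv]; exact hv) (by rw [hgv]; exact hd)
      have hact' : A.Act l q' := by rw [← mem_Ig, ← hI, mem_Ig]; exact hact
      rw [hgv, hmact l hact'] at h1
      have h2 := act_h A hact hv
      simp only [Sys.h] at h1 h2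
      rw [dotProduct_sub]
      linarith
    · have h1 := hg.neb k hk
      have h2 := hk0 k
      simp only [tk] at h2
      have h3 := (mul_eq_zero.1 h2).resolve_left (mul_ne_zero hs h1)
      have h4 := (mem_Bt A).1 hk
      simp only [Sys.bx] at h3 h4
      rw [dotProduct_sub]
      linarith
  exact sub_eq_zero.1 hd0

end

theorem certCore (n : ℕ) (κ : Type) [Fintype κ] : LinFacts n κ → CertCore n κ := by
  intro hL ι Λ _ _ A hF hG
  obtain ⟨f, hf⟩ := exists_generic A hL hF hG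
  have hf' : ∀ q, ∃ lam mu, A.Vtx univ q → Good A f q lam mu := by
    intro q
    by_cases hq : A.Vtx univ q
    · obtain ⟨lam, mu, h⟩ := hf q hq
      exact ⟨lam, mu, fun _ => h⟩
    · exact ⟨0, 0, fun h => absurd h hq⟩
  choose lam mu hgood using hf'
  refine ⟨fun s q => univ.filter fun v => sgn s * lam q v < 0,
    fun s q => univ.filter fun k => sgn s * mu q k < 0, ?_, ?_⟩
  · intro q hq
    have hg := hgood q hq
    refine ⟨?_, ?_, ?_⟩
    · intro s v hv
      rw [mem_filter] at hv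
      have hne : lam q v ≠ 0 := by
        intro h0
        rw [h0, mul_zero] at hv
        exact lt_irrefl _ hv.2
      refine ⟨hg.supp v hne, ?_⟩
      by_contra hcon
      exact hne (hg.zero A v hcon)
    · intro v hv hd
      have hne := hg.ne v hv hd
      simp only [mem_filter, mem_univ, true_and, sgn, if_true, Bool.false_eq_true, if_false,
        one_mul, not_lt]
      constructor
      · intro h; linarith
      · intro h
        rcases lt_or_gt_of_ne hne with h1 | h1
        · exact h1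
        · exfalso; linarith
    · intro s l hl hnI
      have hnact : ¬ A.Act l q := by rw [← mem_Ig]; exact hnI
      have h2 : 2 ≤ (A.W l q).card := by
        rcases (mem_Dg A).1 hl with h | h
        · exact absurd h hnact
        · exact h
      obtain ⟨v0, hv0⟩ : (A.W l q).Nonempty := Finset.card_pos.1 (by omega)
      have hgv0 : A.grp v0 = l := ((mem_W A).1 hv0).1
      have hne := hg.ne v0 (by rw [hgv0]; exact hv0) (by rw [hgv0]; exact hl)
      have hsum := hg.sum0 l hnact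
      have hs : sgn s ≠ 0 := by unfold sgn; split_ifs <;> norm_num
      have hsum' : ∑ v ∈ A.fib l, -(sgn s * lam q v) = 0 := by
        rw [Finset.sum_neg_distrib, ← Finset.mul_sum, hsum, mul_zero, neg_zero]
      obtain ⟨v, hv, hpos⟩ := Finset.exists_pos_of_sum_zero_of_exists_nonzero _ hsum'
        ⟨v0, (mem_fib A).2 hgv0, neg_ne_zero.2 (mul_ne_zero hs hne)⟩
      refine ⟨v, mem_inter.2 ⟨mem_filter.2 ⟨mem_univ v, ?_⟩, hv⟩⟩
      linarith
  · intro s q q' hq hq' hI hD hT hTB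
    have hg := hgood q hq
    have hg' := hgood q' hq'
    have hT' : ∀ v, sgn s * lam q v < 0 ↔ sgn s * lam q' v < 0 := by
      intro v
      have := Finset.ext_iff.1 hT v
      simpa using this
    have hTB' : ∀ k, sgn s * mu q k < 0 ↔ sgn s * mu q' k < 0 := by
      intro k
      have := Finset.ext_iff.1 hTB k
      simpa using this
    have hker := (hL ι Λ A hF hG univ q hq.1).2.1 hq.2
    have hker' := (hL ι Λ A hF hG univ q' hq'.1).2.1 hq'.2
    have h1 := main_ineq A hF hg hg' hq'.1 hker hI s hT' hTB'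
    have h2 := main_ineq A hF hg' hg hq.1 hker' hI.symm s (fun v => (hT' v).symm)
      (fun k => (hTB' k).symm)
    have h3 : sgn s * (f ⬝ᵥ q' - f ⬝ᵥ q) = 0 := by
      have e : sgn s * (f ⬝ᵥ q - f ⬝ᵥ q') = - (sgn s * (f ⬝ᵥ q' - f ⬝ᵥ q)) := by ring
      rw [e] at h2
      linarith [h1.1, h2.1]
    exact (h1.2 h3).symm

end Pool.Agent.Helper17.Trans
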